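import Pool.Agent.Helper13_FK.Stmts

/-!
# Squad FK: EXC, almost all elements are good
-/

namespace Pool.Agent.FK.H40

open NumberField Polynomial Module Pool.Agent.FK

noncomputable section

lemma fin_lt (H : ℕ) (P : ℕ → Prop) : {t : ℕ | t < H ∧ P t}.Finite :=
  (Set.finite_Iio H).subset fun _ h => h.1

lemma ncard_or {P Q R : ℕ → Prop} {H : ℕ} (h : ∀ t, t < H → P t → Q t ∨ R t) :
    {t : ℕ | t < H ∧ P t}.ncard ≤ {t : ℕ | t < H ∧ Q t}.ncard + {t : ℕ | t < H ∧ R t}.ncard := by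
  refine (Set.ncard_le_ncard (t := {t : ℕ | t < H ∧ Q t} ∪ {t : ℕ | t < H ∧ R t}) ?_
    ((fin_lt H Q).union (fin_lt H R))).trans (Set.ncard_union_le _ _)
  rintro t ⟨h1, h2⟩
  rcases h t h1 h2 with h3 | h3
  · exact Or.inl ⟨h1, h3⟩
  · exact Or.inr ⟨h1, h3⟩

/-- the value of the polynomial of a line -/
lemma linePoly_eval {n : ℕ} {z v : Fin n → ℂ} {Φ : ℤ[X]} (h : LinePoly n z v Φ) (t : ℤ) :
    ((Φ.eval t : ℤ) : ℂ) = ∏ i, ∏ j ∈ Finset.Ioi i,
      ((v j - v i) * ((z j + t * v j) - (z i + t * v i))) := by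
  have h1 : ((Φ.eval t : ℤ) : ℂ) = (Φ.map (Int.castRingHom ℂ)).eval (t : ℂ) := by
    have := Polynomial.eval_intCast_map (Int.castRingHom ℂ) Φ t
    rw [this]
    simp
  rw [h1, h, eval_prod]
  refine Finset.prod_congr rfl fun i _ => ?_
  rw [eval_prod]
  refine Finset.prod_congr rfl fun j _ => ?_
  simp only [eval_mul, eval_add, eval_C, eval_X]
  ring

section K

variable {ι : Type} {K : ι → Type} [∀ a, Field (K a)] [∀ a, NumberField (K a)]

lemma cj_line (e v : RR K) (t : ℕ) (i : Emb K) :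
    cj K (e + (t : ℤ) • v) i = cj K e i + t * cj K v i := by
  simp [cj]

omit [∀ a, NumberField (K a)] in
lemma cj_integral (e : RR K) (i : Emb K) : IsIntegral ℤ (cj K e i) :=
  map_isIntegral_int i.2 (RingOfIntegers.isIntegral_coe (e i.1))

end K

/-- the valuation of an integer prime to `p` -/
lemma val_int {B : ℕ → ValuationSubring ℂ} (hB : GoodB B) {p : ℕ} (hp : p.Prime) {a : ℤ}
    (ha : ¬ (p : ℤ) ∣ a) : (B p).valuation (a : ℂ) = 1 := by
  obtain ⟨h1, h2⟩ := hB p hp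
  have hle : ∀ k : ℤ, (B p).valuation (k : ℂ) ≤ 1 := fun k => by
    rw [ValuationSubring.valuation_le_one_iff]
    exact h1 _ (by
      have := isIntegral_algebraMap (R := ℤ) (A := ℂ) (x := k)
      simpa using this)
  refine le_antisymm (hle a) ?_
  by_contra hlt
  rw [not_le] at hlt
  have hcop : IsCoprime (p : ℤ) a := by
    rw [Int.isCoprime_iff_gcd_eq_one]
    have h3 : Nat.Coprime p a.natAbs := (Nat.Prime.coprime_iff_not_dvd hp).2 fun h => ha (by
      exact Int.natCast_dvd.2 h)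
    simpa [Int.gcd] using h3
  obtain ⟨u, w, huw⟩ := hcop
  have h4 : (1 : ℂ) = (u : ℂ) * (p : ℂ) + (w : ℂ) * (a : ℂ) := by
    exact_mod_cast huw.symm
  have h5 : (B p).valuation (1 : ℂ) < 1 := by
    rw [h4]
    refine lt_of_le_of_lt ((B p).valuation.map_add _ _) (max_lt ?_ ?_)
    · rw [map_mul, mul_comm]
      exact mul_lt_one_of_lt_of_le h2 (hle u)
    · rw [map_mul, mul_comm]
      exact mul_lt_one_of_lt_of_le hlt (hle w)
  rw [map_one] at h5
  exact lt_irrefl _ h5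

lemma val_factor {B : ValuationSubring ℂ} {n : ℕ} {v : Fin n → ℂ} (hv : ∀ i, v i ∈ B)
    (h : B.valuation (∏ i, ∏ j ∈ Finset.Ioi i, (v j - v i) ^ 2) = 1) {i j : Fin n}
    (hij : i ≠ j) : B.valuation (v i - v j) = 1 := by
  have hle : ∀ i j, B.valuation (v i - v j) ≤ 1 := fun i j => by
    rw [ValuationSubring.valuation_le_one_iff]
    exact B.sub_mem (hv i) (hv j)
  have key : ∀ i j, i < j → B.valuation (v j - v i) = 1 := by
    intro i j hlt
    refine le_antisymm (hle _ _) ?_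
    by_contra hc
    rw [not_le] at hc
    have hin : ∀ i', B.valuation (∏ j ∈ Finset.Ioi i', (v j - v i') ^ 2) ≤ 1 := fun i' => by
      rw [map_prod]
      exact Finset.prod_le_one' fun j' _ => by
        rw [map_pow]; exact pow_le_one' (hle _ _) 2
    have h1 : B.valuation (∏ j ∈ Finset.Ioi i, (v j - v i) ^ 2) < 1 := by
      rw [← Finset.mul_prod_erase _ _ (Finset.mem_Ioi.2 hlt), map_mul, map_pow]
      refine mul_lt_one_of_lt_of_le (pow_lt_one₀ zero_le hc two_ne_zero) ?_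
      rw [map_prod]
      exact Finset.prod_le_one' fun j' _ => by
        rw [map_pow]; exact pow_le_one' (hle _ _) 2
    have h2 : B.valuation (∏ i, ∏ j ∈ Finset.Ioi i, (v j - v i) ^ 2) < 1 := by
      rw [← Finset.mul_prod_erase _ _ (Finset.mem_univ i), map_mul]
      refine mul_lt_one_of_lt_of_le h1 ?_
      rw [map_prod]
      exact Finset.prod_le_one' fun j' _ => hin j'
    rw [h] at h2
    exact lt_irrefl _ h2
  rcases lt_or_gt_of_ne hij with h1 | h1
  · rw [← key i j h1, ← Valuation.map_neg, neg_sub]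
  · exact key j i h1

section main

variable {ι : Type} [Fintype ι] {K : ι → Type} [∀ a, Field (K a)] [∀ a, NumberField (K a)]

/-- a good value on a line gives a good element -/
lemma good_elem (hSin : SinStmt) {n : ℕ} (en : Fin n ≃ Emb K) {B : ℕ → ValuationSubring ℂ}
    (hB : GoodB B) {δ δ' : ℝ} {H : ℕ} (e v : RR K) {a : ℤ} {Φ : ℤ[X]} {Δ : ℤ}
    (ha : (a : ℂ) = ∏ i, ∏ j ∈ Finset.Ioi i, (cj K v (en j) - cj K v (en i)) ^ 2)
    (ha0 : a ≠ 0) (hH : ((2 * a).natAbs : ℝ) ≤ (H : ℝ) ^ δ)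
    (hΦ : LinePoly n (fun i => cj K e (en i)) (fun i => cj K v (en i)) Φ) (hbez : Bez Φ Δ) {t : ℕ}
    (hgood : LineGood δ δ' H a Φ Δ t)
    (hle : ∀ i j : Fin n, i ≠ j → (H : ℝ) ^ (1 - δ) ≤
      ‖(cj K e (en i) + t * cj K v (en i)) - (cj K e (en j) + t * cj K v (en j))‖) :
    GE K n en B δ δ' H v (e + (t : ℤ) • v) (Φ.eval (t : ℤ)).natAbs (2 * a * Δ).natAbs := by
  obtain ⟨g1, g2, g3, g4⟩ := hgood
  have hdvd : ∀ p : ℕ, p ∣ (2 * a * Δ).natAbs ↔ (p : ℤ) ∣ 2 * a * Δ := fun p =>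
    Int.natCast_dvd.symm
  have hdvd' : ∀ p : ℕ, p ∣ (Φ.eval (t : ℤ)).natAbs ↔ (p : ℤ) ∣ Φ.eval (t : ℤ) := fun p =>
    Int.natCast_dvd.symm
  have heval := linePoly_eval hΦ (t : ℤ)
  refine ⟨Int.natAbs_pos.2 g1, ?_, ?_, ?_, ?_, ?_, g4, ?_⟩
  · have h1 : (((Φ.eval (t : ℤ)).natAbs : ℕ) : ℝ) = ‖((Φ.eval (t : ℤ) : ℤ) : ℂ)‖ := by
      rw [Complex.norm_intCast, ← Int.cast_abs, ← Int.natCast_natAbs]
      simp
    rw [h1, heval, norm_prod]
    refine Finset.prod_congr rfl fun i _ => ?_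
    rw [norm_prod]
    refine Finset.prod_congr rfl fun j _ => ?_
    rw [norm_mul, cj_line, cj_line, Int.cast_natCast]
  · rw [hdvd]
    exact ⟨a * Δ, by push_cast; ring⟩
  · intro p hp hpM hpN
    rw [hdvd] at hpM
    rw [hdvd'] at hpN
    have h1 : ¬ (p : ℤ) ∣ a * Δ := fun h => hpM (by
      rw [mul_assoc]; exact Dvd.dvd.mul_left h 2)
    have h2 : ¬ (p : ℤ) ∣ a := fun h => h1 (Dvd.dvd.mul_right h Δ)
    obtain ⟨i, j, hop, hm⟩ := hSin B hB n _ _ Φ Δ (fun i => cj_integral e (en i))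
      (fun i => cj_integral v (en i)) hΦ hbez p (t : ℤ) a hp ha h1 hpN
    have hline : ∀ k : Emb K, cj K (e + (t : ℤ) • v) k = cj K e k + ((t : ℤ) : ℂ) * cj K v k :=
      fun k => by rw [cj_line, Int.cast_natCast]
    obtain ⟨o1, o2, o3⟩ := hop
    refine ⟨en i, en j, ⟨fun h => o1 (en.injective h), ?_, ?_⟩, ?_, ?_⟩
    · rw [hline, hline]
      exact o2
    · intro k l hkl hv
      have h3 := o3 (en.symm k) (en.symm l) (fun h => hkl (en.symm.injective h)) (by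
        simp only [Equiv.apply_symm_apply]
        rw [hline, hline] at hv
        exact hv)
      rcases h3 with ⟨h4, h5⟩ | ⟨h4, h5⟩
      · left
        exact ⟨by rw [← h4, Equiv.apply_symm_apply], by rw [← h5, Equiv.apply_symm_apply]⟩
      · right
        exact ⟨by rw [← h4, Equiv.apply_symm_apply], by rw [← h5, Equiv.apply_symm_apply]⟩
    · refine val_factor (B := B p) (v := fun i => cj K v (en i))
        (fun i => (hB p hp).1 _ (cj_integral v (en i))) ?_ o1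
      rw [← ha]
      exact val_int hB hp h2
    · intro m hm'
      rw [hline, hline]
      refine hm m ?_
      have : (((p ^ m : ℕ)) : ℤ) ∣ Φ.eval (t : ℤ) := Int.natCast_dvd.2 hm'
      rw [← Nat.cast_pow]
      exact this
  · intro p hp hpH hpN hpM
    rw [hdvd'] at hpN
    rw [hdvd] at hpM
    have h1 := g2 p hp hpH hpN
    have hpi : Prime (p : ℤ) := Nat.prime_iff_prime_int.1 hp
    rcases hpi.dvd_or_dvd hpM with h2 | h2
    · have h3 : p ≤ (2 * a).natAbs := Nat.le_of_dvd (Int.natAbs_pos.2 (by simpa using ha0))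
        (Int.natCast_dvd.1 h2)
      have h4 : (p : ℝ) ≤ ((2 * a).natAbs : ℝ) := by exact_mod_cast h3
      linarith
    · exact h1 h2
  · intro p hp hpH hpH' hpN
    refine g3 p hp hpH hpH' ?_
    have : (((p ^ 2 : ℕ)) : ℤ) ∣ Φ.eval (t : ℤ) := Int.natCast_dvd.2 hpN
    rw [← Nat.cast_pow]
    exact this
  · intro i j hij
    have h1 := hle (en.symm i) (en.symm j) (fun h => hij (en.symm.injective h))
    simp only [Equiv.apply_symm_apply] at h1
    rw [cj_line, cj_line]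
    exact h1

end main

theorem exc (hFph : FphStmt) (hLin : LinStmt) (hLe : LeStmt) (hBez : BezStmt) (hAvg : AvgStmt)
    (hZer : ZerStmt) (hSin : SinStmt) (hBox : BoxStmt) : ExcStmt := by
  classical
  intro ι _ K _ _ n en B v δ δ' hB hn hv hδ hδ' hδ'1
  have hδ1 : δ < 1 := by linarith
  have hcard : Fintype.card (Emb K) = n := by
    rw [← Fintype.card_congr en, Fintype.card_fin]
  -- the constant bounding `v`
  obtain ⟨c, hc0, hc⟩ : ∃ c : ℝ, 0 ≤ c ∧ ∀ i, ‖cj K v i‖ ≤ c :=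
    ⟨∑ i, ‖cj K v i‖, Finset.sum_nonneg fun i _ => norm_nonneg _, fun i =>
      Finset.single_le_sum (f := fun i => ‖cj K v i‖) (fun i _ => norm_nonneg _)
        (Finset.mem_univ i)⟩
  have hvinj : Function.Injective (fun i : Fin n => cj K v (en i)) := hv.comp en.injective
  -- the leading coefficient
  obtain ⟨a, ha⟩ : ∃ a : ℤ, (a : ℂ) =
      ∏ i, ∏ j ∈ Finset.Ioi i, (cj K v (en j) - cj K v (en i)) ^ 2 := by
    obtain ⟨Φ, hΦ⟩ := hFph ι K n en v v
    refine ⟨Φ.eval 0, ?_⟩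
    rw [linePoly_eval hΦ 0]
    refine Finset.prod_congr rfl fun i _ => Finset.prod_congr rfl fun j _ => ?_
    push_cast
    ring
  have ha0 : a ≠ 0 := by
    rintro rfl
    rw [Int.cast_zero] at ha
    have := ha.symm
    rw [Finset.prod_eq_zero_iff] at this
    obtain ⟨i, -, hi⟩ := this
    rw [Finset.prod_eq_zero_iff] at hi
    obtain ⟨j, hj, hij⟩ := hi
    have h1 : cj K v (en j) - cj K v (en i) = 0 := by
      simpa using hij
    have h2 := hvinj (sub_eq_zero.1 h1)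
    rw [Finset.mem_Ioi] at hj
    exact absurd h2 (ne_of_gt hj)
  obtain ⟨C₁, c₁, hC₁⟩ := hBez n (fun i => cj K v (en i)) a hn hvinj ha (c + 1) (by linarith)
  have hd : 1 ≤ n * (n - 1) / 2 := by
    rw [Nat.le_div_iff_mul_le (by norm_num)]
    have : 2 * 1 ≤ n * (n - 1) := Nat.mul_le_mul hn (by omega)
    omega
  obtain ⟨η₁, hη₁, C₂, hC₂⟩ := hLin (n * (n - 1) / 2) a C₁ c₁ δ δ' hd ha0 hδ hδ' hδ'1
  obtain ⟨C₃, hC₃⟩ := hLe n (fun i => cj K v (en i)) hvinj
  obtain ⟨C₄, hC₄⟩ := hZer ι K v hv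
  obtain ⟨hbox, -⟩ := hBox ι K
  set η : ℝ := min η₁ δ with hη
  have hη0 : 0 < η := lt_min hη₁ hδ
  refine ⟨η, hη0, 3 ^ n * (2 * a).natAbs + ((3 * (c + 1)) ^ n * (|C₂| + |C₃|) +
    |C₄| * (c + 1) ^ ((n : ℝ) - 1)), fun H hH => ?_⟩
  have hHr : (1 : ℝ) ≤ H := by exact_mod_cast hH
  have hH0 : (0 : ℝ) < H := by linarith
  have hcp : (0 : ℝ) < c + 1 := by linarith
  have hpos1 : 0 ≤ (3 : ℝ) ^ n * (2 * a).natAbs := by positivity
  have hpos2 : 0 ≤ (3 * (c + 1)) ^ n * (|C₂| + |C₃|) + |C₄| * (c + 1) ^ ((n : ℝ) - 1) := by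
    positivity
  have hHp : 0 ≤ (H : ℝ) ^ ((n : ℝ) - η) := by positivity
  by_cases hsmall : (H : ℝ) ^ δ < ((2 * a).natAbs : ℝ)
  · -- small values of `H`
    have h1 : ({e : RR K | e ∈ Box K H ∧ ¬ ∃ N M : ℕ, GE K n en B δ δ' H v e N M}.ncard : ℝ) ≤
        (Box K H).ncard := by
      exact_mod_cast Set.ncard_le_ncard
        (s := {e : RR K | e ∈ Box K H ∧ ¬ ∃ N M : ℕ, GE K n en B δ δ' H v e N M})
        (fun _ h => h.1) (hbox H (by linarith)).1
    have h2 : ((Box K H).ncard : ℝ) ≤ (3 * H) ^ n := by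
      refine (hbox H (by linarith)).2.trans ?_
      rw [hcard]
      exact pow_le_pow_left₀ (by linarith) (by linarith) n
    have h3 : (H : ℝ) ^ η ≤ (2 * a).natAbs :=
      (Real.rpow_le_rpow_of_exponent_le hHr (min_le_right _ _)).trans hsmall.le
    have h4 : (H : ℝ) ^ (n : ℝ) = (H : ℝ) ^ ((n : ℝ) - η) * (H : ℝ) ^ η := by
      rw [← Real.rpow_add hH0]; congr 1; ring
    have h5 : ((3 : ℝ) * H) ^ n ≤ 3 ^ n * (2 * a).natAbs * (H : ℝ) ^ ((n : ℝ) - η) := by
      rw [mul_pow, ← Real.rpow_natCast (H : ℝ) n, h4]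
      have := mul_le_mul_of_nonneg_left h3 hHp
      have h6 : (0 : ℝ) ≤ 3 ^ n := by positivity
      nlinarith [mul_le_mul_of_nonneg_left this h6]
    refine h1.trans (h2.trans (h5.trans ?_))
    rw [add_mul]
    linarith [mul_nonneg hpos2 hHp]
  · rw [not_lt] at hsmall
    set S : Set (RR K) := {e | ¬ ∃ N M : ℕ, GE K n en B δ δ' H v e N M} with hS
    set D : Set (RR K) := {e | ¬ NonDeg (cj K e) (cj K v)} with hD
    set b : ℝ := (|C₂| + |C₃|) * (H : ℝ) ^ (1 - η) with hb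
    have hb0 : 0 ≤ b := by positivity
    have hexp1 : (H : ℝ) ^ (1 - η₁) ≤ (H : ℝ) ^ (1 - η) :=
      Real.rpow_le_rpow_of_exponent_le hHr (by linarith [min_le_left η₁ δ])
    have hexp2 : (H : ℝ) ^ (1 - δ) ≤ (H : ℝ) ^ (1 - η) :=
      Real.rpow_le_rpow_of_exponent_le hHr (by linarith [min_le_right η₁ δ])
    have key : ∀ e ∈ Box K ((c + 1) * H), e ∉ D →
        ({t : ℕ | t < H ∧ e + (t : ℤ) • v ∈ S}.ncard : ℝ) ≤ b := by
      intro e he heD
      have hnd : NonDeg (cj K e) (cj K v) := by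
        by_contra h
        exact heD h
      have hnd' : NonDeg (fun i : Fin n => cj K e (en i)) (fun i => cj K v (en i)) := by
        intro i j k l h1 h2 h3 h4
        exact hnd (en i) (en j) (en k) (en l) (fun h => h1 (en.injective h))
          (fun h => h2 (en.injective h))
          (fun h => h3 ⟨en.injective h.1, en.injective h.2⟩)
          (fun h => h4 ⟨en.injective h.1, en.injective h.2⟩)
      obtain ⟨Φ, hΦ⟩ := hFph ι K n en e v
      obtain ⟨Δ, hLP⟩ := hC₁ H (fun i => cj K e (en i)) Φ hH (fun i => he (en i)) hnd' hΦ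
      have h1 := hC₂ H Φ Δ hH hLP
      have h2 := hC₃ δ H (fun i => cj K e (en i)) hδ hδ1 hH
      have h3 := ncard_or (H := H) (P := fun t => e + (t : ℤ) • v ∈ S)
        (Q := fun t => ¬ LineGood δ δ' H a Φ Δ t)
        (R := fun t => ∃ i j, i ≠ j ∧ ‖(cj K e (en i) + t * cj K v (en i)) -
          (cj K e (en j) + t * cj K v (en j))‖ < (H : ℝ) ^ (1 - δ)) (by
          intro t ht htS
          by_contra hno
          rw [not_or, not_not, not_exists] at hno
          obtain ⟨k1, k2⟩ := hno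
          refine htS ⟨_, _, good_elem hSin en hB e v ha ha0 hsmall hΦ hLP.bez k1 ?_⟩
          intro i j hij
          by_contra hlt
          rw [not_le] at hlt
          exact k2 i ⟨j, hij, hlt⟩)
      have h4 : ({t : ℕ | t < H ∧ e + (t : ℤ) • v ∈ S}.ncard : ℝ) ≤
          C₂ * (H : ℝ) ^ (1 - η₁) + C₃ * (H : ℝ) ^ (1 - δ) := by
        refine le_trans ?_ (add_le_add h1 h2)
        exact_mod_cast h3
      refine h4.trans ?_
      have p1 : 0 ≤ (H : ℝ) ^ (1 - η₁) := by positivity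
      have p2 : 0 ≤ (H : ℝ) ^ (1 - δ) := by positivity
      have q1 : C₂ * (H : ℝ) ^ (1 - η₁) ≤ |C₂| * (H : ℝ) ^ (1 - η) :=
        (mul_le_mul_of_nonneg_right (le_abs_self _) p1).trans
          (mul_le_mul_of_nonneg_left hexp1 (abs_nonneg _))
      have q2 : C₃ * (H : ℝ) ^ (1 - δ) ≤ |C₃| * (H : ℝ) ^ (1 - η) :=
        (mul_le_mul_of_nonneg_right (le_abs_self _) p2).trans
          (mul_le_mul_of_nonneg_left hexp2 (abs_nonneg _))
      rw [hb, add_mul]
      exact add_le_add q1 q2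
    have havg := hAvg ι K v c hc0 hc S D H b hH hb0 key
    rw [hcard] at havg
    have hzer := hC₄ ((c + 1) * H) (by nlinarith)
    rw [hcard] at hzer
    have e1 : ({e : RR K | e ∈ Box K H ∧ ¬ ∃ N M : ℕ, GE K n en B δ δ' H v e N M}.ncard : ℝ) =
        ((S ∩ Box K H).ncard : ℝ) := by
      congr 2
      ext e
      exact and_comm
    have e2 : ((D ∩ Box K ((c + 1) * H)).ncard : ℝ) ≤
        |C₄| * (c + 1) ^ ((n : ℝ) - 1) * (H : ℝ) ^ ((n : ℝ) - η) := by
      have e3 : ((D ∩ Box K ((c + 1) * H)).ncard : ℝ) =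
          ({e : RR K | e ∈ Box K ((c + 1) * H) ∧ ¬ NonDeg (cj K e) (cj K v)}.ncard : ℝ) := by
        congr 2
        ext e
        exact and_comm
      rw [e3]
      refine hzer.trans ?_
      rw [Real.mul_rpow hcp.le hH0.le, mul_assoc]
      have h1 : (H : ℝ) ^ ((n : ℝ) - 1) ≤ (H : ℝ) ^ ((n : ℝ) - η) :=
        Real.rpow_le_rpow_of_exponent_le hHr (by linarith [min_le_right η₁ δ])
      have h2 : 0 ≤ (c + 1) ^ ((n : ℝ) - 1) * (H : ℝ) ^ ((n : ℝ) - 1) := by positivity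
      refine (mul_le_mul_of_nonneg_right (le_abs_self _) h2).trans ?_
      exact mul_le_mul_of_nonneg_left (mul_le_mul_of_nonneg_left h1 (by positivity))
        (abs_nonneg _)
    have e4 : (3 * (c + 1) * (H : ℝ)) ^ n * b =
        (3 * (c + 1)) ^ n * (|C₂| + |C₃|) * (H : ℝ) ^ ((n : ℝ) - η) * H := by
      rw [mul_pow, hb, ← Real.rpow_natCast (H : ℝ) n]
      have h1 : (H : ℝ) ^ (n : ℝ) * (H : ℝ) ^ (1 - η) = (H : ℝ) ^ ((n : ℝ) - η) * H := by
        rw [← Real.rpow_add hH0]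
        have : (H : ℝ) ^ ((n : ℝ) - η) * (H : ℝ) = (H : ℝ) ^ ((n : ℝ) - η) * (H : ℝ) ^ (1 : ℝ) := by
          rw [Real.rpow_one]
        rw [this, ← Real.rpow_add hH0]
        congr 1
        ring
      calc (3 * (c + 1)) ^ n * (H : ℝ) ^ (n : ℝ) * ((|C₂| + |C₃|) * (H : ℝ) ^ (1 - η))
          = (3 * (c + 1)) ^ n * (|C₂| + |C₃|) * ((H : ℝ) ^ (n : ℝ) * (H : ℝ) ^ (1 - η)) := by ring
        _ = _ := by rw [h1]; ring
    rw [e4, ← add_mul] at havg
    have h6 := le_of_mul_le_mul_right havg hH0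
    rw [e1]
    refine h6.trans ?_
    have h7 := mul_nonneg hpos1 hHp
    have h8 : (3 ^ n * ((2 * a).natAbs : ℝ) + ((3 * (c + 1)) ^ n * (|C₂| + |C₃|) +
        |C₄| * (c + 1) ^ ((n : ℝ) - 1))) * (H : ℝ) ^ ((n : ℝ) - η) =
        3 ^ n * ((2 * a).natAbs : ℝ) * (H : ℝ) ^ ((n : ℝ) - η) +
        (3 * (c + 1)) ^ n * (|C₂| + |C₃|) * (H : ℝ) ^ ((n : ℝ) - η) +
        |C₄| * (c + 1) ^ ((n : ℝ) - 1) * (H : ℝ) ^ ((n : ℝ) - η) := by ring
    rw [h8]
    linarith

end

end Pool.Agent.FK.H40
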